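import Pool.Agent.H57.SC.Targets

/-!
# s4_modules, module ST: one step of the induction
-/

set_option autoImplicit false

namespace Pool.Agent.H54.SC

open Finset Pool.Agent.H57.SC

theorem st_mem {W C B : Type} [Fintype C] {cyc : W → C} {blk : W → B}
    {adj : W → W → Prop} {Q Y : Finset B} {c : C} :
    c ∈ Cov cyc blk adj Q Y ↔ ∃ x, Al cyc blk adj Q c x ∧ blk x ∈ Y := by
  unfold Cov
  simp only [Finset.mem_filter, Finset.mem_univ, true_and]

/-- the centres cover the demands -/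
theorem st_cov {W C B : Type} [Fintype C] [DecidableEq B] {cyc : W → C} {blk : W → B}
    {adj : W → W → Prop} {Q Q0 Y : Finset B} {f : C → W} (hal : ∀ c, Al cyc blk adj Q c (f c))
    (hdm : ∀ b ∈ Y, dem Q0 b ≤ cn blk f b) :
    ∑ b ∈ Y, dem Q0 b ≤ (Cov cyc blk adj Q Y).card := by
  classical
  have h1 : ∑ b ∈ Y, cn blk f b = (univ.filter (fun c => blk (f c) ∈ Y)).card := by
    have h2 : (univ.filter (fun c => blk (f c) ∈ Y)).card =
        ∑ b ∈ Y, ((univ.filter (fun c => blk (f c) ∈ Y)).filter (fun c => blk (f c) = b)).card :=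
      Finset.card_eq_sum_card_fiberwise (fun c hc => (Finset.mem_filter.1 hc).2)
    rw [h2]
    refine Finset.sum_congr rfl fun b hb => ?_
    unfold cn
    congr 1
    ext c
    simp only [mem_filter, mem_univ, true_and]
    constructor
    · intro h
      exact ⟨h ▸ hb, h⟩
    · exact fun h => h.2
  calc ∑ b ∈ Y, dem Q0 b ≤ ∑ b ∈ Y, cn blk f b := Finset.sum_le_sum hdm
    _ = (univ.filter (fun c => blk (f c) ∈ Y)).card := h1
    _ ≤ (Cov cyc blk adj Q Y).card := by
        apply Finset.card_le_card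
        intro c hc
        have h3 : blk (f c) ∈ Y := (Finset.mem_filter.1 hc).2
        exact st_mem.2 ⟨f c, hal c, h3⟩

theorem pf_st (hl : T_HL) (zz : T_ZZ) (ul : T_UL) (gb : T_GB) : T_ST := by
  intro W C B _ _ _ _ _ _ cyc blk adj hS Q f d hSt hCB hQd
  classical
  obtain ⟨Z, z1, z2, z3⟩ := zz W C B cyc blk adj Q f hSt
  obtain ⟨b, hbZ, hbQ, hb4, hbU⟩ := gb W C B cyc blk adj hS Q Z f d hSt hCB hQd z2 z3
  obtain ⟨-, u2, -⟩ := ul W C B cyc blk adj hS Q f hSt
  refine ⟨b, hbQ, hb4, ?_⟩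
  -- marked vertices
  have mk1 : ∀ w, blk w = b →
      Mk cyc blk (insert b Q) (cyc w) = fun p => Mk cyc blk Q (cyc w) p ∨ p = w := by
    intro w hw
    funext p
    apply propext
    constructor
    · rintro ⟨h1, h2⟩
      rcases Finset.mem_insert.1 h2 with h3 | h3
      · right
        by_contra hne
        exact u2 w p (hbU w hw) (hbU p h3) (fun h => hne h.symm) h1.symm (hw.trans h3.symm)
      · exact Or.inl ⟨h1, h3⟩
    · rintro (⟨h1, h2⟩ | h)
      · exact ⟨h1, Finset.mem_insert_of_mem h2⟩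
      · exact ⟨by rw [h], by rw [h, hw]; exact Finset.mem_insert_self _ _⟩
  have mk2 : ∀ c, (∀ w, cyc w = c → blk w ≠ b) →
      Mk cyc blk (insert b Q) c = Mk cyc blk Q c := by
    intro c hc
    funext p
    apply propext
    constructor
    · rintro ⟨h1, h2⟩
      exact ⟨h1, (Finset.mem_insert.1 h2).resolve_left (hc p h1)⟩
    · rintro ⟨h1, h2⟩
      exact ⟨h1, Finset.mem_insert_of_mem h2⟩
  have al1 : ∀ w, blk w = b → Al cyc blk adj (insert b Q) (cyc w) w := by
    intro w hw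
    refine ⟨rfl, ?_⟩
    rw [mk1 w hw]
    exact (hbU w hw).1
  have al2 : ∀ w, blk w = b → Al cyc blk adj (insert b Q) (cyc w) (f (cyc w)) := by
    intro w hw
    refine ⟨(hSt.al (cyc w)).1, ?_⟩
    rw [mk1 w hw]
    exact (hbU w hw).2
  have al3 : ∀ c, (∀ w, cyc w = c → blk w ≠ b) → ∀ x, Al cyc blk adj Q c x →
      Al cyc blk adj (insert b Q) c x := by
    rintro c hc x ⟨h1, h2⟩
    refine ⟨h1, ?_⟩
    rw [mk2 c hc]
    exact h2
  have al4 : ∀ c x, Al cyc blk adj (insert b Q) c x → Al cyc blk adj Q c x := by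
    rintro c x ⟨h1, h2, h3⟩
    exact ⟨h1, fun p hp => h2 p ⟨hp.1, Finset.mem_insert_of_mem hp.2⟩,
      fun p q hp hq => h3 p q ⟨hp.1, Finset.mem_insert_of_mem hp.2⟩
        ⟨hq.1, Finset.mem_insert_of_mem hq.2⟩⟩
  have hal : ∀ c, Al cyc blk adj (insert b Q) c (f c) := by
    intro c
    by_cases hc : ∃ w, cyc w = c ∧ blk w = b
    · obtain ⟨w, rfl, hw⟩ := hc
      exact al2 w hw
    · exact al3 c (fun w h1 h2 => hc ⟨w, h1, h2⟩) _ (hSt.al c)
  refine hl W C B cyc blk adj (insert b Q) f hal fun Y => ?_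
  have hd : ∀ b', b' ≠ b → dem (insert b Q) b' = dem Q b' := by
    intro b' hb'
    unfold dem
    simp [hb']
  by_cases hbY : b ∈ Y
  · -- the cycles with an allowed centre are the same
    have hcov : Cov cyc blk adj Q Y ⊆ Cov cyc blk adj (insert b Q) Y := by
      intro c hc
      obtain ⟨x, hx, hxY⟩ := st_mem.1 hc
      refine st_mem.2 ?_
      by_cases hc : ∃ w, cyc w = c ∧ blk w = b
      · obtain ⟨w, rfl, hw⟩ := hc
        exact ⟨w, al1 w hw, by rw [hw]; exact hbY⟩
      · exact ⟨x, al3 c (fun w h1 h2 => hc ⟨w, h1, h2⟩) _ hx, hxY⟩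
    have h1 : ∑ b' ∈ Y, dem Q b' ≤ (Cov cyc blk adj Q Y).card :=
      st_cov hSt.al fun b' _ => hSt.dm b'
    have h2 : (Cov cyc blk adj Q Y).card ≠ ∑ b' ∈ Y, dem Q b' := fun h => hbZ (z1 Y h hbY)
    have h3 : ∑ b' ∈ Y, dem (insert b Q) b' = ∑ b' ∈ Y, dem Q b' + 1 := by
      rw [← Finset.add_sum_erase Y _ hbY, ← Finset.add_sum_erase Y (dem Q) hbY]
      have h4 : ∑ b' ∈ Y.erase b, dem (insert b Q) b' = ∑ b' ∈ Y.erase b, dem Q b' :=
        Finset.sum_congr rfl fun b' hb' => hd b' (Finset.ne_of_mem_erase hb')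
      have h5 : dem (insert b Q) b = 2 := by
        unfold dem
        simp
      have h6 : dem Q b = 1 := by
        unfold dem
        simp [hbQ]
      rw [h4, h5, h6]
      ring
    have h7 := Finset.card_le_card hcov
    rw [h3]
    omega
  · refine st_cov (f := f) hal fun b' hb' => ?_
    rw [hd b' (fun h => hbY (h ▸ hb'))]
    exact hSt.dm b'

end Pool.Agent.H54.SC
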